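import Mathlib

set_option autoImplicit false

namespace Pool.Agent.Results.MP_6b55e5_an.RogersQ2

open MeasureTheory

/-- The Euclidean plane. -/
abbrev Plane : Type := EuclideanSpace ℝ (Fin 2)

/-- `S` is a closed strip of width `w > 0`: the closed set between the two parallel lines
`⟪u, x⟫ = c` and `⟪u, x⟫ = c + w`, where `u` is a unit vector. -/
def IsStrip (S : Set Plane) (w : ℝ) : Prop :=
  0 < w ∧ ∃ (u : Plane) (c : ℝ), ‖u‖ = 1 ∧ S = {x | c ≤ inner ℝ u x ∧ inner ℝ u x ≤ c + w}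

/-- A Besicovitch set: bounded, Lebesgue null, with a closed unit segment in every direction. -/
def IsBesicovitch (E : Set Plane) : Prop :=
  Bornology.IsBounded E ∧ volume E = 0 ∧
    ∀ e : Plane, ‖e‖ = 1 → ∃ x : Plane, segment ℝ x (x + e) ⊆ E

/-- `E` is covered by finitely or countably many closed strips of total width less than `ε`. -/
def HasStripCover (E : Set Plane) (ε : ℝ) : Prop :=
  ∃ (ι : Type) (_ : Countable ι) (S : ι → Set Plane) (w : ι → ℝ),
    (∀ i, IsStrip (S i) (w i)) ∧ (E ⊆ ⋃ i, S i) ∧ Summable w ∧ (∑' i, w i) < ε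

/-- Property (S). -/
def PropertyS (E : Set Plane) : Prop := ∀ ε : ℝ, 0 < ε → HasStripCover E ε

/-- `blk F a b x`: the point of the line `y = a x + b` above `x` lies in one of the strips
`|y - p x - q| ≤ w`, `(p, q, w) ∈ F`. -/
def blk (F : List (ℝ × ℝ × ℝ)) (a b x : ℝ) : Prop :=
  ∃ f ∈ F, |(a - f.1) * x + (b - f.2.1)| ≤ f.2.2

def tot (F : List (ℝ × ℝ × ℝ)) : ℝ := (F.map (fun f => f.2.2)).sum

theorem tot_append (F G : List (ℝ × ℝ × ℝ)) : tot (F ++ G) = tot F + tot G := by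
  simp [tot]

theorem tot_cons (f : ℝ × ℝ × ℝ) (G : List (ℝ × ℝ × ℝ)) : tot (f :: G) = f.2.2 + tot G := by
  simp [tot]

theorem blk_append_left {F : List (ℝ × ℝ × ℝ)} (G : List (ℝ × ℝ × ℝ)) {a b x : ℝ}
    (h : blk F a b x) : blk (F ++ G) a b x := by
  obtain ⟨f, hf, h⟩ := h
  exact ⟨f, List.mem_append_left _ hf, h⟩

theorem blk_append_right (F : List (ℝ × ℝ × ℝ)) {G : List (ℝ × ℝ × ℝ)} {a b x : ℝ}
    (h : blk G a b x) : blk (F ++ G) a b x := by
  obtain ⟨f, hf, h⟩ := h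
  exact ⟨f, List.mem_append_right _ hf, h⟩

/-- the covering statement on one interval of slopes -/
def Cov (x0 α β c η M : ℝ) : Prop :=
  ∃ F : List (ℝ × ℝ × ℝ), (∀ f ∈ F, 0 < f.2.2) ∧ tot F ≤ M ∧
    ∀ a, α ≤ a → a ≤ β → ∃ b, |b - c| ≤ η ∧ ∀ x, x0 ≤ x → x ≤ 1 → blk F a b x

theorem Cov.concat {x0 α β γ c η M N : ℝ} (h1 : Cov x0 α β c η M) (h2 : Cov x0 β γ c η N) :
    Cov x0 α γ c η (M + N) := by
  obtain ⟨F, hF0, hF1, hF2⟩ := h1
  obtain ⟨G, hG0, hG1, hG2⟩ := h2
  refine ⟨F ++ G, ?_, ?_, ?_⟩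
  · intro f hf
    rcases List.mem_append.1 hf with h | h
    · exact hF0 f h
    · exact hG0 f h
  · rw [tot_append]; linarith
  · intro a ha1 ha2
    rcases le_total a β with h | h
    · obtain ⟨b, hb, hb'⟩ := hF2 a ha1 h
      exact ⟨b, hb, fun x hx0 hx1 => blk_append_left _ (hb' x hx0 hx1)⟩
    · obtain ⟨b, hb, hb'⟩ := hG2 a h ha2
      exact ⟨b, hb, fun x hx0 hx1 => blk_append_right _ (hb' x hx0 hx1)⟩

theorem Cov.mono {x0 α β c η M N : ℝ} (h : Cov x0 α β c η M) (hMN : M ≤ N) :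
    Cov x0 α β c η N := by
  obtain ⟨F, hF0, hF1, hF2⟩ := h
  exact ⟨F, hF0, hF1.trans hMN, hF2⟩

theorem Cov.mono_eta {x0 α β c η η' M : ℝ} (h : Cov x0 α β c η M) (hη : η ≤ η') :
    Cov x0 α β c η' M := by
  obtain ⟨F, hF0, hF1, hF2⟩ := h
  refine ⟨F, hF0, hF1, fun a ha ha' => ?_⟩
  obtain ⟨b, hb, hb'⟩ := hF2 a ha ha'
  exact ⟨b, hb.trans hη, hb'⟩

def Good (x0 l : ℝ) : Prop :=
  ∀ α β c η : ℝ, α < β → 0 < η → Cov x0 α β c η ((l + η) * (β - α))

/-- It is enough to treat short intervals of slopes. -/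
theorem good_of_short {x0 c η C δ : ℝ} (hδ : 0 < δ)
    (h : ∀ α β : ℝ, α < β → β - α ≤ δ → Cov x0 α β c η (C * (β - α))) :
    ∀ α β : ℝ, α < β → Cov x0 α β c η (C * (β - α)) := by
  have key : ∀ n : ℕ, ∀ α β : ℝ, α < β → β - α ≤ n * δ → Cov x0 α β c η (C * (β - α)) := by
    intro n
    induction n with
    | zero =>
      intro α β hαβ hle
      norm_num at hle
      linarith
    | succ n ih =>
      intro α β hαβ hle
      rcases le_or_gt (β - α) δ with hs | hs
      · exact h α β hαβ hs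
      · have h1 := h α (α + δ) (by linarith) (by linarith)
        have h2 := ih (α + δ) β (by linarith) (by push_cast at hle; linarith)
        have h3 := h1.concat h2
        refine h3.mono (le_of_eq ?_)
        ring
  intro α β hαβ
  obtain ⟨n, hn⟩ := exists_nat_ge ((β - α) / δ)
  exact key n α β hαβ (by rwa [div_le_iff₀ hδ] at hn)

theorem good_one : Good 0 1 := by
  intro α β c η hαβ hη
  refine (good_of_short (C := 1) hη ?_ α β hαβ).mono ?_
  · intro α β hαβ hle
    refine ⟨[(α, c, β - α)], ?_, ?_, ?_⟩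
    · intro f hf
      simp only [List.mem_singleton] at hf
      subst hf
      simpa using hαβ
    · simp [tot]
    · intro a ha1 ha2
      refine ⟨c, by simpa using hη.le, fun x hx0 hx1 => ⟨(α, c, β - α), by simp, ?_⟩⟩
      simp only [sub_self, add_zero]
      rw [abs_of_nonneg (mul_nonneg (by linarith) hx0)]
      nlinarith
  · nlinarith

theorem Good.mono {x0 l l' : ℝ} (h : Good x0 l) (hl : l ≤ l') : Good x0 l' := by
  intro α β c η hαβ hη
  exact (h α β c η hαβ hη).mono (by nlinarith)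

theorem Good.closed {x0 l : ℝ} (h : ∀ l' > l, Good x0 l') : Good x0 l := by
  intro α β c η hαβ hη
  refine ((h (l + η / 2) (by linarith) α β c (η / 2) hαβ (by linarith)).mono ?_).mono_eta ?_
  · refine le_of_eq ?_
    ring
  · linarith

theorem Good.scale {l x0 : ℝ} (h : Good 0 l) (hx0 : 0 ≤ x0) (hx1 : x0 < 1) :
    Good x0 (l * (1 - x0)) := by
  intro α β c η hαβ hη
  refine good_of_short (δ := η / 2) (by linarith) ?_ α β hαβ
  intro α β hαβ hle
  obtain ⟨F, hF0, hF1, hF2⟩ := h α β 0 (η / 2) hαβ (by linarith)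
  have h1 : 0 < 1 - x0 := by linarith
  refine ⟨F.map (fun f => (f.1, c + x0 * α - x0 * f.1 + (1 - x0) * f.2.1, (1 - x0) * f.2.2)),
    ?_, ?_, ?_⟩
  · intro f hf
    rw [List.mem_map] at hf
    obtain ⟨g, hg, rfl⟩ := hf
    exact mul_pos h1 (hF0 g hg)
  · have : tot (F.map (fun f => (f.1, c + x0 * α - x0 * f.1 + (1 - x0) * f.2.1,
        (1 - x0) * f.2.2))) = (1 - x0) * tot F := by
      simp only [tot, List.map_map]
      rw [← List.sum_map_mul_left]
      rfl
    rw [this]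
    have h2 := mul_le_mul_of_nonneg_left hF1 h1.le
    refine h2.trans ?_
    have h3 : 0 < β - α := by linarith
    have h4 : (1 - x0) * ((l + η / 2) * (β - α)) =
      (l * (1 - x0) + η / 2 * (1 - x0)) * (β - α) := by ring
    rw [h4]
    apply mul_le_mul_of_nonneg_right _ h3.le
    nlinarith
  · intro a ha1 ha2
    obtain ⟨b, hb, hb'⟩ := hF2 a ha1 ha2
    refine ⟨c + x0 * α - x0 * a + (1 - x0) * b, ?_, ?_⟩
    · rw [abs_le] at hb ⊢
      constructor <;> nlinarith
    · intro x hx hx'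
      obtain ⟨f, hf, hfx⟩ := hb' ((x - x0) / (1 - x0)) (div_nonneg (by linarith) h1.le)
        (by rw [div_le_one h1]; linarith)
      refine ⟨_, List.mem_map_of_mem hf, ?_⟩
      simp only
      have e : (a - f.1) * x + (c + x0 * α - x0 * a + (1 - x0) * b -
          (c + x0 * α - x0 * f.1 + (1 - x0) * f.2.1)) =
          (1 - x0) * ((a - f.1) * ((x - x0) / (1 - x0)) + (b - f.2.1)) := by
        field_simp
        ring
      rw [e, abs_mul, abs_of_pos h1]
      exact mul_le_mul_of_nonneg_left hfx h1.le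

/-- the dyadic blocks -/
theorem blocks {l : ℝ} (h : Good 0 l) (K : ℕ) : ∀ α c w η : ℝ, 0 < w → 0 < η →
    ∃ F : List (ℝ × ℝ × ℝ), (∀ f ∈ F, 0 < f.2.2) ∧
      tot F ≤ (l * (2 ^ K - 1 - K / 2) + η * 2 ^ K) * w ∧
      ∀ a, α ≤ a → a ≤ α + 2 ^ K * w → ∃ b, |b - c| ≤ η ∧ ∀ x, 0 ≤ x → x ≤ 1 →
        (|(a - α) * x + (b - c)| ≤ w + η ∨ blk F a b x) := by
  induction K with
  | zero =>
    intro α c w η hw hη
    refine ⟨[], by simp, ?_, ?_⟩
    · simp only [tot, List.map_nil, List.sum_nil, pow_zero, Nat.cast_zero]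
      have : 0 < η * w := mul_pos hη hw
      nlinarith
    · intro a ha1 ha2
      refine ⟨c, by simpa using hη.le, fun x hx0 hx1 => Or.inl ?_⟩
      simp only [sub_self, add_zero, pow_zero, one_mul] at *
      rw [abs_of_nonneg (mul_nonneg (by linarith) hx0)]
      nlinarith
  | succ K ih =>
    intro α c w η hw hη
    obtain ⟨F, hF0, hF1, hF2⟩ := ih α c w η hw hη
    have hp : (0 : ℝ) < 2 ^ K := by positivity
    have hx0 : (0 : ℝ) < (1 / 2) ^ (K + 1) := by positivity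
    have hx1 : ((1 : ℝ) / 2) ^ (K + 1) < 1 := pow_lt_one₀ (by norm_num) (by norm_num) (by omega)
    obtain ⟨G, hG0, hG1, hG2⟩ := (h.scale hx0.le hx1) (α + 2 ^ K * w) (α + 2 ^ (K + 1) * w) c η
      (by rw [pow_succ]; nlinarith) hη
    refine ⟨F ++ G, ?_, ?_, ?_⟩
    · intro f hf
      rcases List.mem_append.1 hf with h | h
      · exact hF0 f h
      · exact hG0 f h
    · rw [tot_append]
      refine (add_le_add hF1 hG1).trans (le_of_eq ?_)
      have e : ((1 : ℝ) / 2) ^ (K + 1) * 2 ^ K = 1 / 2 := by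
        rw [pow_succ, mul_assoc, mul_comm (1 / 2 : ℝ) (2 ^ K), ← mul_assoc, ← mul_pow]
        norm_num
      push_cast
      rw [pow_succ 2 K]
      linear_combination (-l * w) * e
    · intro a ha1 ha2
      rcases le_total a (α + 2 ^ K * w) with h | h
      · obtain ⟨b, hb, hb'⟩ := hF2 a ha1 h
        refine ⟨b, hb, fun x hx0 hx1 => ?_⟩
        rcases hb' x hx0 hx1 with h' | h'
        · exact Or.inl h'
        · exact Or.inr (blk_append_left _ h')
      · obtain ⟨b, hb, hb'⟩ := hG2 a h ha2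
        refine ⟨b, hb, fun x hx0' hx1' => ?_⟩
        rcases le_total ((1 / 2 : ℝ) ^ (K + 1)) x with hx | hx
        · exact Or.inr (blk_append_right _ (hb' x hx hx1'))
        · left
          have h2 : (a - α) * x ≤ w := by
            have h3 : (a - α) * x ≤ (2 ^ (K + 1) * w) * (1 / 2) ^ (K + 1) := by
              apply mul_le_mul _ hx hx0' (by positivity)
              linarith
            have h4 : (2 ^ (K + 1) * w) * ((1 : ℝ) / 2) ^ (K + 1) = w := by
              rw [mul_comm (2 ^ (K + 1) : ℝ) w, mul_assoc, ← mul_pow]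
              norm_num
            linarith
          have h5 : 0 ≤ (a - α) * x := mul_nonneg (by linarith) hx0'
          calc |(a - α) * x + (b - c)| ≤ |(a - α) * x| + |b - c| := abs_add_le _ _
            _ ≤ w + η := by
              rw [abs_of_nonneg h5]
              linarith

theorem Good.improve {l : ℝ} (h : Good 0 l) (K : ℕ) :
    Good 0 (l * (1 - (1 + K / 2) / 2 ^ K) + 1 / 2 ^ K) := by
  intro α β c η hαβ hη
  set w : ℝ := (β - α) / 2 ^ K with hw
  have hp : (0 : ℝ) < 2 ^ K := by positivity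
  have hw0 : 0 < w := div_pos (by linarith) hp
  -- choose the slack for the blocks
  set η' : ℝ := min (η / 2) (η * w / 2) with hη'
  have hη0 : 0 < η' := by
    rw [hη']
    exact lt_min (by linarith) (by positivity)
  obtain ⟨F, hF0, hF1, hF2⟩ := blocks h K α c w η' hw0 hη0
  refine ⟨(α, c, w + η') :: F, ?_, ?_, ?_⟩
  · intro f hf
    rcases List.mem_cons.1 hf with h | h
    · subst h
      simp only
      linarith
    · exact hF0 f h
  · rw [tot_cons]
    simp only
    have e1 : β - α = 2 ^ K * w := by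
      rw [hw]
      field_simp
    rw [e1]
    have h1 : η' ≤ η / 2 := min_le_left _ _
    have h2 : η' ≤ η * w / 2 := min_le_right _ _
    have e2 : (l * (1 - (1 + (K : ℝ) / 2) / 2 ^ K) + 1 / 2 ^ K + η) * (2 ^ K * w) =
        w + l * (2 ^ K - 1 - K / 2) * w + η * 2 ^ K * w := by
      field_simp
      ring
    rw [e2]
    have h3 : η' * 2 ^ K * w ≤ η / 2 * 2 ^ K * w := by
      have : 0 < 2 ^ K * w := by positivity
      nlinarith
    have h4 : (1 : ℝ) ≤ 2 ^ K := one_le_pow₀ (by norm_num)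
    have h5 : η * w / 2 ≤ η / 2 * 2 ^ K * w := by
      have : 0 < η * w := by positivity
      nlinarith
    nlinarith
  · intro a ha1 ha2
    obtain ⟨b, hb, hb'⟩ := hF2 a ha1 (by
      have e1 : 2 ^ K * w = β - α := by
        rw [hw]
        field_simp
      rw [e1]; linarith)
    have h1 : η' ≤ η / 2 := min_le_left _ _
    refine ⟨b, by linarith, fun x hx0 hx1 => ?_⟩
    rcases hb' x hx0 hx1 with h' | ⟨f, hf, h'⟩
    · exact ⟨(α, c, w + η'), List.mem_cons_self, h'⟩
    · exact ⟨f, List.mem_cons_of_mem _ hf, h'⟩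

theorem good_zero : Good 0 0 := by
  set S : Set ℝ := {l | 0 ≤ l ∧ Good 0 l} with hS
  have hne : S.Nonempty := ⟨1, by norm_num, good_one⟩
  have hbdd : BddBelow S := ⟨0, fun l hl => hl.1⟩
  have h0 : 0 ≤ sInf S := Real.sInf_nonneg (fun l hl => hl.1)
  have hgood : Good 0 (sInf S) := by
    apply Good.closed
    intro l' hl'
    obtain ⟨l, hl, hll⟩ := (csInf_lt_iff hbdd hne).1 hl'
    exact hl.2.mono hll.le
  have hle : ∀ K : ℕ, sInf S * (1 + K / 2) ≤ 1 := by
    intro K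
    have hp : (0 : ℝ) < 2 ^ K := by positivity
    have h1 := hgood.improve K
    have h2 : 0 ≤ sInf S * (1 - (1 + K / 2) / 2 ^ K) + 1 / 2 ^ K := by
      have h3 : (1 + (K : ℝ) / 2) / 2 ^ K ≤ 1 := by
        rw [div_le_one hp]
        have h4 : (1 : ℝ) + K * 1 ≤ (1 + 1) ^ K := one_add_mul_le_pow (by norm_num) K
        norm_num at h4
        have h5 : (0 : ℝ) ≤ K := Nat.cast_nonneg K
        linarith
      have := mul_nonneg h0 (sub_nonneg.2 h3)
      positivity
    have h3 : sInf S ≤ _ := csInf_le hbdd (show _ ∈ S from ⟨h2, h1⟩)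
    have h4 : sInf S * ((1 + K / 2) / 2 ^ K) ≤ 1 / 2 ^ K := by nlinarith
    rw [mul_div_assoc', div_le_div_iff_of_pos_right hp] at h4
    exact h4
  have hz : sInf S ≤ 0 := by
    by_contra hcon
    push Not at hcon
    obtain ⟨K, hK⟩ := exists_nat_gt (2 / sInf S)
    have h1 := hle K
    rw [div_lt_iff₀ hcon] at hK
    nlinarith
  exact hgood.mono hz



theorem stage (q δ ε : ℝ) (hδ : 0 < δ) (hε : 0 < ε) :
    ∃ F : List (ℝ × ℝ × ℝ), (∀ f ∈ F, 0 < f.2.2) ∧ tot F ≤ ε ∧ ∃ ρ > 0,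
      ∀ a, -1 ≤ a → a ≤ 1 → ∃ b0, |b0 - q| ≤ δ ∧
        ∀ b, |b - b0| < ρ → ∀ x, 0 ≤ x → x ≤ 1 → blk F a b x := by
  obtain ⟨F, hF0, hF1, hF2⟩ := good_zero (-1) 1 q (min δ (ε / 4)) (by norm_num)
    (lt_min hδ (by linarith))
  set N : ℝ := (F.length : ℝ) with hN
  have hN0 : 0 ≤ N := Nat.cast_nonneg _
  set ρ : ℝ := ε / (2 * (N + 1)) with hρ
  have hρ0 : 0 < ρ := by positivity
  refine ⟨F.map (fun f => (f.1, f.2.1, f.2.2 + ρ)), ?_, ?_, ρ, hρ0, ?_⟩
  · intro f hf
    rw [List.mem_map] at hf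
    obtain ⟨g, hg, rfl⟩ := hf
    have := hF0 g hg
    simp only
    linarith
  · have e : tot (F.map (fun f => (f.1, f.2.1, f.2.2 + ρ))) = tot F + N * ρ := by
      simp only [tot, List.map_map, hN]
      have : ((fun f : ℝ × ℝ × ℝ => f.2.2) ∘ fun f : ℝ × ℝ × ℝ => (f.1, f.2.1, f.2.2 + ρ)) =
        fun f => f.2.2 + ρ := rfl
      rw [this, List.sum_map_add]
      simp
    rw [e]
    have h1 : tot F ≤ ε / 2 := by
      refine hF1.trans ?_
      have : min δ (ε / 4) ≤ ε / 4 := min_le_right _ _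
      linarith
    have h2 : N * ρ ≤ ε / 2 := by
      rw [hρ, mul_div_assoc', div_le_div_iff₀ (by positivity) (by norm_num)]
      nlinarith
    linarith
  · intro a ha1 ha2
    obtain ⟨b0, hb0, hb0'⟩ := hF2 a ha1 ha2
    refine ⟨b0, hb0.trans (min_le_left _ _), fun b hb x hx0 hx1 => ?_⟩
    obtain ⟨f, hf, hfx⟩ := hb0' x hx0 hx1
    refine ⟨_, List.mem_map_of_mem hf, ?_⟩
    simp only
    calc |(a - f.1) * x + (b - f.2.1)| = |((a - f.1) * x + (b0 - f.2.1)) + (b - b0)| := by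
          congr 1; ring
      _ ≤ |(a - f.1) * x + (b0 - f.2.1)| + |b - b0| := abs_add_le _ _
      _ ≤ f.2.2 + ρ := by linarith

theorem level (ε : ℝ) (hε : 0 < ε) :
    ∃ (ι : Type) (_ : Countable ι) (f : ι → ℝ × ℝ × ℝ), (∀ i, 0 < (f i).2.2) ∧
      ∑' i, ENNReal.ofReal (f i).2.2 < ENNReal.ofReal ε ∧
      ∀ a, -1 ≤ a → a ≤ 1 → ∃ U : Set ℝ, IsOpen U ∧ Dense U ∧ ∀ b ∈ U, ∀ x, 0 ≤ x → x ≤ 1 →
        ∃ i, |(a - (f i).1) * x + (b - (f i).2.1)| ≤ (f i).2.2 := by
  obtain ⟨e, he0, he1⟩ := ENNReal.exists_pos_sum_of_countable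
    (ε := ENNReal.ofReal ε) (by simpa using hε) (ℕ × ℚ)
  choose F hF0 hF1 ρ hρ hF2 using fun j : ℕ × ℚ =>
    stage (j.2 : ℝ) (1 / ((j.1 : ℝ) + 1)) (e j : ℝ) (by positivity) (he0 j)
  refine ⟨Σ j : ℕ × ℚ, Fin (F j).length, inferInstance, fun p => (F p.1)[p.2.1], ?_, ?_, ?_⟩
  · intro p
    exact hF0 p.1 _ (List.getElem_mem _)
  · refine lt_of_le_of_lt ?_ he1
    rw [ENNReal.tsum_sigma' (fun p : (Σ j : ℕ × ℚ, Fin (F j).length) =>
      ENNReal.ofReal ((F p.1)[p.2.1]).2.2)]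
    refine ENNReal.tsum_le_tsum (fun j => ?_)
    rw [tsum_fintype, ← ENNReal.ofReal_sum_of_nonneg
      (fun i _ => (hF0 j _ (List.getElem_mem _)).le)]
    have h1 : ∑ i : Fin (F j).length, ((F j)[i.1]).2.2 = tot (F j) :=
      Fin.sum_univ_fun_getElem (F j) (fun f => f.2.2)
    rw [h1]
    have h2 := ENNReal.ofReal_le_ofReal (hF1 j)
    rwa [ENNReal.ofReal_coe_nnreal] at h2
  · intro a ha1 ha2
    choose b0 hb0 hb0' using fun j : ℕ × ℚ => hF2 j a ha1 ha2
    refine ⟨⋃ j, Metric.ball (b0 j) (ρ j), isOpen_iUnion (fun j => Metric.isOpen_ball), ?_, ?_⟩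
    · rw [Metric.dense_iff]
      intro t r hr
      obtain ⟨m, hm⟩ := exists_nat_one_div_lt (show 0 < r / 2 by linarith)
      obtain ⟨q, hq1, hq2⟩ := exists_rat_btwn (show t < t + r / 2 by linarith)
      refine ⟨b0 (m, q), ?_, Set.mem_iUnion.2 ⟨(m, q), Metric.mem_ball_self (hρ _)⟩⟩
      rw [Metric.mem_ball, Real.dist_eq]
      have h1 := hb0 (m, q)
      simp only at h1
      rw [abs_le] at h1
      rw [abs_lt]
      constructor <;> linarith [h1.1, h1.2]
    · intro b hb x hx0 hx1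
      obtain ⟨j, hj⟩ := Set.mem_iUnion.1 hb
      rw [Metric.mem_ball, Real.dist_eq] at hj
      obtain ⟨f, hf, hfx⟩ := hb0' j b hj x hx0 hx1
      obtain ⟨i, hi, rfl⟩ := List.getElem_of_mem hf
      exact ⟨⟨j, ⟨i, hi⟩⟩, hfx⟩

/-- the selection of intercepts -/
theorem selection :
    ∃ (ι : ℕ → Type) (_ : ∀ k, Countable (ι k)) (f : ∀ k, ι k → ℝ × ℝ × ℝ) (b : ℝ → ℝ),
      (∀ k i, 0 < (f k i).2.2) ∧
      (∀ k, ∑' i, ENNReal.ofReal (f k i).2.2 < ENNReal.ofReal (1 / ((k : ℝ) + 1))) ∧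
      (∀ a, -1 ≤ a → a ≤ 1 → |b a| < 1 ∧ ∀ k x, 0 ≤ x → x ≤ 1 →
        ∃ i, |(a - (f k i).1) * x + (b a - (f k i).2.1)| ≤ (f k i).2.2) := by
  choose ι hι f hf0 hf1 hf2 using fun k : ℕ => level (1 / ((k : ℝ) + 1)) (by positivity)
  have key : ∀ a : ℝ, ∃ b : ℝ, -1 ≤ a → a ≤ 1 → |b| < 1 ∧ ∀ k x, 0 ≤ x → x ≤ 1 →
      ∃ i, |(a - (f k i).1) * x + (b - (f k i).2.1)| ≤ (f k i).2.2 := by
    intro a
    by_cases ha : -1 ≤ a ∧ a ≤ 1
    · choose U hU1 hU2 hU3 using fun k => hf2 k a ha.1 ha.2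
      have hd := dense_iInter_of_isOpen_nat hU1 hU2
      obtain ⟨b, hb1, hb2⟩ := hd.inter_open_nonempty (Metric.ball 0 1) Metric.isOpen_ball
        ⟨0, by simp⟩
      refine ⟨b, fun _ _ => ⟨by simpa using hb1, fun k x hx0 hx1 => ?_⟩⟩
      exact hU3 k b (Set.mem_iInter.1 hb2 k) x hx0 hx1
    · exact ⟨0, fun h1 h2 => absurd ⟨h1, h2⟩ ha⟩
  choose b hb using key
  exact ⟨ι, hι, f, b, hf0, hf1, hb⟩

/-- summation in `[0, ∞]` against summation of reals -/
theorem summable_of_ennreal {ι : Type} (w : ι → ℝ) (hw : ∀ i, 0 ≤ w i) (ε : ℝ)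
    (h : ∑' i, ENNReal.ofReal (w i) < ENNReal.ofReal ε) : Summable w ∧ ∑' i, w i < ε := by
  have hne : ∑' i, ENNReal.ofReal (w i) ≠ ⊤ := (h.trans ENNReal.ofReal_lt_top).ne
  have hs : Summable w := by
    have := ENNReal.summable_toReal hne
    simpa [ENNReal.toReal_ofReal, hw] using this
  refine ⟨hs, ?_⟩
  rw [← ENNReal.ofReal_tsum_of_nonneg hw hs] at h
  exact (ENNReal.ofReal_lt_ofReal_iff_of_nonneg (tsum_nonneg hw)).1 h

/-- the strip `|y - p x - q| ≤ w` -/
theorem isStrip_slope (p q w : ℝ) (hw : 0 < w) :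
    ∃ w' : ℝ, w' ≤ 2 * w ∧ IsStrip {v : Plane | |v 1 - p * v 0 - q| ≤ w} w' := by
  set N : ℝ := Real.sqrt (1 + p ^ 2) with hN
  have hN2 : N ^ 2 = 1 + p ^ 2 := Real.sq_sqrt (by positivity)
  have hN1 : 1 ≤ N := by
    rw [hN]
    exact Real.one_le_sqrt.2 (by nlinarith [sq_nonneg p])
  have hN0 : 0 < N := by linarith
  refine ⟨2 * w / N, div_le_self (by linarith) hN1, by positivity,
    !₂[-p / N, 1 / N], (q - w) / N, ?_, ?_⟩
  · rw [EuclideanSpace.norm_eq]
    simp only [Fin.sum_univ_two, Real.norm_eq_abs, sq_abs]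
    rw [Real.sqrt_eq_one]
    simp
    field_simp
    rw [hN2]
    ring
  · ext v
    have hin : inner ℝ (!₂[-p / N, 1 / N] : Plane) v = (v 1 - p * v 0) / N := by
      simp [PiLp.inner_apply, Fin.sum_univ_two]
      field_simp
      ring
    simp only [Set.mem_ofPred_eq, hin]
    have h2 : (q - w) / N + 2 * w / N = (q + w) / N := by ring
    rw [h2, div_le_div_iff_of_pos_right hN0, div_le_div_iff_of_pos_right hN0, abs_le]
    constructor
    · rintro ⟨h1, h2⟩
      constructor <;> linarith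
    · rintro ⟨h1, h2⟩
      constructor <;> linarith

/-- exchange of the coordinates -/
def sw (v : Plane) : Plane := !₂[v 1, v 0]

theorem sw_zero (v : Plane) : sw v 0 = v 1 := by simp [sw]
theorem sw_one (v : Plane) : sw v 1 = v 0 := by simp [sw]

/-- the strip `|x - p y - q| ≤ w` -/
theorem isStrip_slope' (p q w : ℝ) (hw : 0 < w) :
    ∃ w' : ℝ, w' ≤ 2 * w ∧ IsStrip {v : Plane | |v 0 - p * v 1 - q| ≤ w} w' := by
  obtain ⟨w', h1, h2, u, c, hu, hS⟩ := isStrip_slope p q w hw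
  refine ⟨w', h1, h2, sw u, c, ?_, ?_⟩
  · rw [EuclideanSpace.norm_eq] at hu ⊢
    rw [← hu]
    simp only [Fin.sum_univ_two, sw_zero, sw_one]
    rw [add_comm]
  · ext v
    have hin : inner ℝ (sw u) v = inner ℝ u (sw v) := by
      simp only [PiLp.inner_apply, Fin.sum_univ_two, sw_zero, sw_one]
      rw [add_comm]
    rw [Set.ext_iff] at hS
    have := hS (sw v)
    simp only [Set.mem_ofPred_eq, sw_zero, sw_one] at this ⊢
    rw [hin]
    exact this

/-- area of the part of the strip `|y - p x - q| ≤ w` above `[0,1]` -/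
theorem volume_piece (p q w : ℝ) :
    volume {v : Plane | 0 ≤ v 0 ∧ v 0 ≤ 1 ∧ |v 1 - p * v 0 - q| ≤ w} ≤ ENNReal.ofReal (2 * w) := by
  set T : Set (ℝ × ℝ) := {z | 0 ≤ z.1 ∧ z.1 ≤ 1 ∧ |z.2 - p * z.1 - q| ≤ w} with hT
  have hTm : MeasurableSet T := by
    apply IsClosed.measurableSet
    simp only [hT, Set.ofPred_and]
    refine (isClosed_le continuous_const continuous_fst).inter
      ((isClosed_le continuous_fst continuous_const).inter
        (isClosed_le (by fun_prop) continuous_const))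
  have hvol : volume T ≤ ENNReal.ofReal (2 * w) := by
    rw [Measure.volume_eq_prod, Measure.prod_apply hTm]
    calc ∫⁻ x, volume (Prod.mk x ⁻¹' T) ≤
        ∫⁻ x, (Set.Icc (0:ℝ) 1).indicator (fun _ => ENNReal.ofReal (2 * w)) x := by
          refine lintegral_mono (fun x => ?_)
          by_cases hx : x ∈ Set.Icc (0:ℝ) 1
          · rw [Set.indicator_of_mem hx]
            have hsub : Prod.mk x ⁻¹' T ⊆ Set.Icc (p * x + q - w) (p * x + q + w) := by
              intro y hy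
              have h1 : |y - p * x - q| ≤ w := hy.2.2
              rw [abs_le] at h1
              constructor <;> linarith [h1.1, h1.2]
            refine (measure_mono hsub).trans ?_
            rw [Real.volume_Icc]
            apply ENNReal.ofReal_le_ofReal
            linarith
          · rw [Set.indicator_of_notMem hx]
            have : Prod.mk x ⁻¹' T = ∅ := by
              ext y
              simp only [Set.mem_preimage, Set.mem_empty_iff_false, iff_false]
              intro hy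
              exact hx ⟨hy.1, hy.2.1⟩
            rw [this]
            simp
      _ = ENNReal.ofReal (2 * w) := by
          rw [lintegral_indicator measurableSet_Icc]
          simp
  -- transfer to the plane
  have hmp : MeasurePreserving (fun v : Plane => (v 0, v 1)) volume volume := by
    have h1 := PiLp.volume_preserving_ofLp (Fin 2)
    have h2 := volume_preserving_finTwoArrow ℝ
    exact h2.comp h1
  have hpre : {v : Plane | 0 ≤ v 0 ∧ v 0 ≤ 1 ∧ |v 1 - p * v 0 - q| ≤ w} =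
      (fun v : Plane => (v 0, v 1)) ⁻¹' T := rfl
  rw [hpre, hmp.measure_preimage hTm.nullMeasurableSet]
  exact hvol

theorem measurePreserving_sw : MeasurePreserving sw volume volume := by
  have h1 := PiLp.volume_preserving_ofLp (Fin 2)
  have h2 := volume_preserving_finTwoArrow ℝ
  have h3 : MeasurePreserving (Prod.swap : ℝ × ℝ → ℝ × ℝ) volume volume :=
    Measure.measurePreserving_swap
  have h4 := (volume_preserving_finTwoArrow ℝ).symm
  have h5 := PiLp.volume_preserving_toLp (Fin 2)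
  have e : sw = (WithLp.toLp 2) ∘ (MeasurableEquiv.finTwoArrow (α := ℝ)).symm ∘ Prod.swap ∘
      (MeasurableEquiv.finTwoArrow (α := ℝ)) ∘ WithLp.ofLp := by
    funext v
    ext i
    fin_cases i <;> rfl
  rw [e]
  exact h5.comp (h4.comp (h3.comp (h2.comp h1)))

theorem volume_piece' (p q w : ℝ) :
    volume {v : Plane | 0 ≤ v 1 ∧ v 1 ≤ 1 ∧ |v 0 - p * v 1 - q| ≤ w} ≤ ENNReal.ofReal (2 * w) := by
  have h := volume_piece p q w
  have hm : MeasurableSet {v : Plane | 0 ≤ v 0 ∧ v 0 ≤ 1 ∧ |v 1 - p * v 0 - q| ≤ w} := by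
    apply IsClosed.measurableSet
    simp only [Set.ofPred_and]
    refine (isClosed_le continuous_const (by fun_prop)).inter
      ((isClosed_le (by fun_prop) continuous_const).inter
        (isClosed_le (by fun_prop) continuous_const))
  rw [← measurePreserving_sw.measure_preimage hm.nullMeasurableSet] at h
  have e : sw ⁻¹' {v : Plane | 0 ≤ v 0 ∧ v 0 ≤ 1 ∧ |v 1 - p * v 0 - q| ≤ w} =
      {v : Plane | 0 ≤ v 1 ∧ v 1 ≤ 1 ∧ |v 0 - p * v 1 - q| ≤ w} := by
    ext v
    simp only [Set.mem_preimage, Set.mem_ofPred_eq, sw_zero, sw_one]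
  rwa [e] at h

theorem result : ∃ E : Set Plane, IsBesicovitch E ∧ PropertyS E := by
  obtain ⟨ι, hι, f, b, hf0, hf1, hb⟩ := selection
  -- the two halves of the set
  set E0 : Set Plane := {v | ∃ a : ℝ, -1 ≤ a ∧ a ≤ 1 ∧ 0 ≤ v 0 ∧ v 0 ≤ 1 ∧ v 1 = a * v 0 + b a}
    with hE0
  set E1 : Set Plane := {v | ∃ a : ℝ, -1 ≤ a ∧ a ≤ 1 ∧ 0 ≤ v 1 ∧ v 1 ≤ 1 ∧ v 0 = a * v 1 + b a}
    with hE1
  have hcov0 : ∀ k, E0 ⊆ ⋃ i, {v : Plane | 0 ≤ v 0 ∧ v 0 ≤ 1 ∧
      |v 1 - (f k i).1 * v 0 - (f k i).2.1| ≤ (f k i).2.2} := by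
    rintro k v ⟨a, ha1, ha2, h0, h1, hv⟩
    obtain ⟨i, hi⟩ := (hb a ha1 ha2).2 k (v 0) h0 h1
    refine Set.mem_iUnion.2 ⟨i, h0, h1, ?_⟩
    rw [hv]
    have e : a * v 0 + b a - (f k i).1 * v 0 - (f k i).2.1 =
      (a - (f k i).1) * v 0 + (b a - (f k i).2.1) := by ring
    rw [e]
    exact hi
  have hcov1 : ∀ k, E1 ⊆ ⋃ i, {v : Plane | 0 ≤ v 1 ∧ v 1 ≤ 1 ∧
      |v 0 - (f k i).1 * v 1 - (f k i).2.1| ≤ (f k i).2.2} := by
    rintro k v ⟨a, ha1, ha2, h0, h1, hv⟩
    obtain ⟨i, hi⟩ := (hb a ha1 ha2).2 k (v 1) h0 h1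
    refine Set.mem_iUnion.2 ⟨i, h0, h1, ?_⟩
    rw [hv]
    have e : a * v 1 + b a - (f k i).1 * v 1 - (f k i).2.1 =
      (a - (f k i).1) * v 1 + (b a - (f k i).2.1) := by ring
    rw [e]
    exact hi
  have hsum : ∀ k, ∑' i, ENNReal.ofReal (2 * (f k i).2.2) ≤
      ENNReal.ofReal 2 * ENNReal.ofReal (1 / ((k : ℝ) + 1)) := by
    intro k
    simp_rw [ENNReal.ofReal_mul (show (0:ℝ) ≤ 2 by norm_num)]
    rw [ENNReal.tsum_mul_left]
    gcongr
    exact (hf1 k).le
  have hlim : Filter.Tendsto (fun k : ℕ => ENNReal.ofReal 2 * ENNReal.ofReal (1 / ((k : ℝ) + 1)))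
      Filter.atTop (nhds 0) := by
    have h1 := ENNReal.tendsto_ofReal (tendsto_one_div_add_atTop_nhds_zero_nat (𝕜 := ℝ))
    rw [ENNReal.ofReal_zero] at h1
    have h2 := ENNReal.Tendsto.const_mul (a := ENNReal.ofReal 2) h1 (Or.inr ENNReal.ofReal_ne_top)
    simpa using h2
  have hnull0 : volume E0 = 0 := by
    refine le_antisymm (ge_of_tendsto' hlim (fun k => ?_)) zero_le
    have := hι k
    refine (measure_mono (hcov0 k)).trans ((measure_iUnion_le _).trans ?_)
    exact (ENNReal.tsum_le_tsum (fun i => volume_piece _ _ _)).trans (hsum k)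
  have hnull1 : volume E1 = 0 := by
    refine le_antisymm (ge_of_tendsto' hlim (fun k => ?_)) zero_le
    have := hι k
    refine (measure_mono (hcov1 k)).trans ((measure_iUnion_le _).trans ?_)
    exact (ENNReal.tsum_le_tsum (fun i => volume_piece' _ _ _)).trans (hsum k)
  refine ⟨E0 ∪ E1, ⟨?_, ?_, ?_⟩, ?_⟩
  · -- bounded
    rw [Metric.isBounded_iff_subset_closedBall 0]
    refine ⟨4, ?_⟩
    have key : ∀ v : Plane, |v 0| ≤ 2 → |v 1| ≤ 2 → v ∈ Metric.closedBall (0 : Plane) 4 := by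
      intro v h0 h1
      rw [mem_closedBall_zero_iff, EuclideanSpace.norm_eq, Fin.sum_univ_two]
      rw [Real.sqrt_le_left (by norm_num)]
      simp only [Real.norm_eq_abs]
      have := abs_nonneg (v 0)
      have := abs_nonneg (v 1)
      nlinarith
    rintro v (⟨a, ha1, ha2, h0, h1, hv⟩ | ⟨a, ha1, ha2, h0, h1, hv⟩)
    · have hba := (hb a ha1 ha2).1
      rw [abs_lt] at hba
      apply key
      · rw [abs_le]; constructor <;> linarith
      · rw [hv, abs_le]; constructor <;> nlinarith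
    · have hba := (hb a ha1 ha2).1
      rw [abs_lt] at hba
      apply key
      · rw [hv, abs_le]; constructor <;> nlinarith
      · rw [abs_le]; constructor <;> linarith
  · exact measure_union_null hnull0 hnull1
  · -- segments
    intro e he
    rw [EuclideanSpace.norm_eq, Real.sqrt_eq_one, Fin.sum_univ_two] at he
    simp only [Real.norm_eq_abs, sq_abs] at he
    -- one-dimensional data
    have seg : ∀ s t : ℝ, s ^ 2 + t ^ 2 = 1 → |t| ≤ |s| → ∃ a m : ℝ, -1 ≤ a ∧ a ≤ 1 ∧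
        ∀ θ : ℝ, 0 ≤ θ → θ ≤ 1 → 0 ≤ m + θ * s ∧ m + θ * s ≤ 1 ∧
          (a * m + b a) + θ * t = a * (m + θ * s) + b a := by
      intro s t hst hts
      have hs : s ≠ 0 := by
        rintro rfl
        simp at hts
        subst hts
        norm_num at hst
      have hs1 : |s| ≤ 1 := by
        rw [abs_le]; constructor <;> nlinarith [sq_nonneg t]
      have ha : |t / s| ≤ 1 := by
        rw [abs_div, div_le_one (abs_pos.2 hs)]
        exact hts
      rw [abs_le] at ha hs1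
      refine ⟨t / s, max 0 (-s), ha.1, ha.2, fun θ h0 h1 => ⟨?_, ?_, ?_⟩⟩
      · rcases le_total 0 s with h | h
        · have := le_max_left 0 (-s)
          nlinarith
        · have := le_max_right 0 (-s)
          nlinarith
      · rcases le_total 0 s with h | h
        · rw [max_eq_left (by linarith)]
          nlinarith
        · rw [max_eq_right (by linarith)]
          nlinarith
      · field_simp
        ring
    rcases le_total |e 1| |e 0| with hc | hc
    · obtain ⟨a, m, ha1, ha2, h⟩ := seg (e 0) (e 1) he hc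
      refine ⟨!₂[m, a * m + b a], ?_⟩
      rw [segment_eq_image']
      rintro v ⟨θ, ⟨h0, h1⟩, rfl⟩
      obtain ⟨g1, g2, g3⟩ := h θ h0 h1
      refine Or.inl ⟨a, ha1, ha2, ?_⟩
      simp only [add_sub_cancel_left, PiLp.add_apply, PiLp.smul_apply, smul_eq_mul]
      exact ⟨g1, g2, g3⟩
    · obtain ⟨a, m, ha1, ha2, h⟩ := seg (e 1) (e 0) (by linarith) hc
      refine ⟨!₂[a * m + b a, m], ?_⟩
      rw [segment_eq_image']
      rintro v ⟨θ, ⟨h0, h1⟩, rfl⟩
      obtain ⟨g1, g2, g3⟩ := h θ h0 h1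
      refine Or.inr ⟨a, ha1, ha2, ?_⟩
      simp only [add_sub_cancel_left, PiLp.add_apply, PiLp.smul_apply, smul_eq_mul]
      exact ⟨g1, g2, g3⟩
  · -- property (S)
    intro ε hε
    obtain ⟨k, hk⟩ := exists_nat_one_div_lt (show 0 < ε / 8 by linarith)
    choose w0 hw0 hs0 using fun i => isStrip_slope (f k i).1 (f k i).2.1 (f k i).2.2 (hf0 k i)
    choose w1 hw1 hs1 using fun i => isStrip_slope' (f k i).1 (f k i).2.1 (f k i).2.2 (hf0 k i)
    have := hι k
    refine ⟨ι k ⊕ ι k, inferInstance, Sum.elim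
      (fun i => {v : Plane | |v 1 - (f k i).1 * v 0 - (f k i).2.1| ≤ (f k i).2.2})
      (fun i => {v : Plane | |v 0 - (f k i).1 * v 1 - (f k i).2.1| ≤ (f k i).2.2}),
      Sum.elim w0 w1, ?_, ?_, ?_⟩
    · rintro (i | i)
      · exact hs0 i
      · exact hs1 i
    · rintro v (hv | hv)
      · obtain ⟨i, hi⟩ := Set.mem_iUnion.1 (hcov0 k hv)
        exact Set.mem_iUnion.2 ⟨Sum.inl i, hi.2.2⟩
      · obtain ⟨i, hi⟩ := Set.mem_iUnion.1 (hcov1 k hv)
        exact Set.mem_iUnion.2 ⟨Sum.inr i, hi.2.2⟩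
    · apply summable_of_ennreal
      · rintro (i | i)
        · exact (hs0 i).1.le
        · exact (hs1 i).1.le
      · have hsplit : ∑' i : ι k ⊕ ι k, ENNReal.ofReal (Sum.elim w0 w1 i) =
            ∑' i, ENNReal.ofReal (w0 i) + ∑' i, ENNReal.ofReal (w1 i) := by
          rw [Summable.tsum_sum ENNReal.summable ENNReal.summable]
          simp
        rw [hsplit]
        have b0 : ∑' i, ENNReal.ofReal (w0 i) ≤
            ENNReal.ofReal 2 * ENNReal.ofReal (1 / ((k : ℝ) + 1)) :=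
          (ENNReal.tsum_le_tsum (fun i => ENNReal.ofReal_le_ofReal (hw0 i))).trans (hsum k)
        have b1 : ∑' i, ENNReal.ofReal (w1 i) ≤
            ENNReal.ofReal 2 * ENNReal.ofReal (1 / ((k : ℝ) + 1)) :=
          (ENNReal.tsum_le_tsum (fun i => ENNReal.ofReal_le_ofReal (hw1 i))).trans (hsum k)
        refine lt_of_le_of_lt (add_le_add b0 b1) ?_
        rw [← ENNReal.ofReal_mul (by norm_num), ← ENNReal.ofReal_add (by positivity) (by positivity)]
        apply (ENNReal.ofReal_lt_ofReal_iff hε).2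
        linarith

end Pool.Agent.Results.MP_6b55e5_an.RogersQ2
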